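import Pool.Agent.E8helper4.FV.Stm2
import Pool.Agent.E8helper69.FV.C5

/-!
FV2-D5 (helper4's project on Schiffer domains): `f_b` vanishes on an interval only for discs.
-/

set_option autoImplicit false

open Complex Metric Set Filter Topology ComplexConjugate
open Pool.Agent.E8helper4.FV

namespace Pool.Agent.E8helper10.FV2

theorem t_D5 : D5 := by
  intro φ r th b c d hr hφ hinj hA hcd h
  have key : ∀ t ∈ Ioo c d, Pool.Agent.E8helper69.FV.GG φ b t = 0 := by
    intro t ht
    have hd : deriv φ (exp ((t : ℂ) * I)) ≠ 0 :=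
      Pool.Agent.Y769.SC.nz φ r hφ hinj _ (Pool.Agent.E8helper69.FV.exp_mem_ball r hr t)
    have hD : I * exp ((t : ℂ) * I) * deriv φ (exp ((t : ℂ) * I)) ≠ 0 :=
      mul_ne_zero (mul_ne_zero I_ne_zero (exp_ne_zero _)) hd
    have hn : ‖I * exp ((t : ℂ) * I) * deriv φ (exp ((t : ℂ) * I))‖ =
        ‖deriv φ (exp ((t : ℂ) * I))‖ := by
      rw [norm_mul, norm_mul, norm_I, Complex.norm_exp_ofReal_mul_I, one_mul, one_mul]
    have ht' := hA.tan t
    unfold xd at ht'
    rw [← hn] at ht'
    have h0 := h t ht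
    unfold fb xx at h0
    have := (Pool.Agent.E8helper69.FV.relcore _ (φ (exp ((t : ℂ) * I)) - b) (th t) 0 0 hD ht').mp
      (by rw [h0]; ring)
    unfold Pool.Agent.E8helper69.FV.GG
    simpa using this
  exact Pool.Agent.E8helper69.FV.disc φ r hr hφ hinj b
    (Pool.Agent.E8helper69.FV.GG_zero φ r hr hφ b c d hcd key)

end Pool.Agent.E8helper10.FV2
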